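import Pool.Agent.Helper8.Kak.DefsC

/-! Module C5 (problem MP_013a6c_an): type 0 stages. -/

open MeasureTheory Set Topology Filter
open scoped symmDiff ENNReal ProbabilityTheory

namespace KakC

theorem projd_w {X : Type*} [MeasurableSpace X] {t : ℕ → ℕ} {μ : Measure X}
    {S : X → X} {w : ℕ → X → ℕ × ℕ} (hS : Tower t μ S w) (k d : ℕ) (x : X) :
    projd t k d (w (k + d) x) = w k x := by
  induction d with
  | zero => rfl
  | succ d ih =>
    show projd t k d (proj (k + d) (t (k + d)) (w (k + d + 1) x)) = w k x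
    rw [hS.proj (k + d) x, ih]

/-- the counting estimate -/
theorem C5_count (c H m D : ℕ) (hc : 0 < c) :
    ((Finset.range (m * c * H)).filter (fun l => c ≤ (l / H) % c + D)).card * c ≤
      D * (m * c * H) := by
  by_cases hD : c ≤ D
  · calc ((Finset.range (m * c * H)).filter (fun l => c ≤ (l / H) % c + D)).card * c
        ≤ (Finset.range (m * c * H)).card * D :=
          Nat.mul_le_mul (Finset.card_filter_le _ _) hD
      _ = D * (m * c * H) := by rw [Finset.card_range, mul_comm]
  · push Not at hD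
    have hcard : ((Finset.range (m * c * H)).filter (fun l => c ≤ (l / H) % c + D)).card ≤
        (Finset.range m ×ˢ Finset.Ico ((c - D) * H) (c * H)).card := by
      refine Finset.card_le_card_of_injOn (fun l => (l / (H * c), l % (H * c))) ?_ ?_
      · intro l hl
        rw [Finset.mem_coe, Finset.mem_filter, Finset.mem_range] at hl
        obtain ⟨hl1, hl2⟩ := hl
        have hH : 0 < H := by
          rcases Nat.eq_zero_or_pos H with h | h
          · subst h; simp at hl1
          · exact h
        have hHc : 0 < H * c := Nat.mul_pos hH hc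
        rw [Finset.mem_coe, Finset.mem_product, Finset.mem_range, Finset.mem_Ico]
        refine ⟨?_, ?_, ?_⟩
        · rw [Nat.div_lt_iff_lt_mul hHc]
          calc l < m * c * H := hl1
            _ = m * (H * c) := by ring
        · have h1 : (l % (H * c)) / H = (l / H) % c := Nat.mod_mul_right_div_self l H c
          have h2 : c - D ≤ (l % (H * c)) / H := by rw [h1]; omega
          exact (Nat.le_div_iff_mul_le hH).mp h2
        · have := Nat.mod_lt l hHc
          rw [mul_comm c H]; exact this
      · intro l _ l' _ h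
        simp only [Prod.mk.injEq] at h
        rw [← Nat.div_add_mod l (H * c), ← Nat.div_add_mod l' (H * c), h.1, h.2]
    rw [Finset.card_product, Finset.card_range, Nat.card_Ico] at hcard
    have h3 : c * H - (c - D) * H = D * H := by
      rw [← Nat.sub_mul]
      congr 1
      omega
    rw [h3] at hcard
    calc ((Finset.range (m * c * H)).filter (fun l => c ≤ (l / H) % c + D)).card * c
        ≤ (m * (D * H)) * c := Nat.mul_le_mul_right _ hcard
      _ = D * (m * c * H) := by ring

/-- run length of the word `j` at a type 0 stage -/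
def C5c (k j : ℕ) : ℕ := a k ^ (j + N (k + 1) + 2)

theorem C5c_pos (k j : ℕ) : 0 < C5c k j := pow_pos (a_pos k) _

theorem C5c_dvd {k j : ℕ} (hj : j < N (k + 1)) : ∃ m, L k = m * C5c k j := by
  have h1 : C5c k j ∣ Q k := by
    unfold C5c Q
    exact pow_dvd_pow _ (by omega)
  have h2 : C5c k j ∣ L k := by
    unfold L A
    exact Dvd.dvd.mul_left (Dvd.dvd.mul_left h1 _) _
  obtain ⟨m, hm⟩ := h2
  exact ⟨m, by rw [hm, mul_comm]⟩

theorem C5_pat (k j q : ℕ) : pat k 0 j q = (q / C5c k j) % N k := by
  unfold pat ex C5c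
  simp

/-- the bad positions -/
def C5bad (k D : ℕ) : Finset (ℕ × ℕ) :=
  (Finset.range (N (k + 1)) ×ˢ Finset.range (h (k + 1))).filter
    (fun ω => C5c k ω.1 ≤ (ω.2 / h k) % C5c k ω.1 + D)

theorem C5bad_card (k D : ℕ) :
    (C5bad k D).card * a k ^ (N (k + 1) + 2) ≤ D * (N (k + 1) * h (k + 1)) := by
  have e : (C5bad k D).card = ∑ j ∈ Finset.range (N (k + 1)),
      ((Finset.range (h (k + 1))).filter
        (fun l => C5c k j ≤ (l / h k) % C5c k j + D)).card := by
    unfold C5bad
    rw [Finset.card_filter, Finset.sum_product]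
    refine Finset.sum_congr rfl fun j _ => ?_
    rw [Finset.card_filter]
  rw [e, Finset.sum_mul]
  calc ∑ j ∈ Finset.range (N (k + 1)),
        ((Finset.range (h (k + 1))).filter
          (fun l => C5c k j ≤ (l / h k) % C5c k j + D)).card * a k ^ (N (k + 1) + 2)
      ≤ ∑ j ∈ Finset.range (N (k + 1)), D * h (k + 1) := by
        refine Finset.sum_le_sum fun j hj => ?_
        rw [Finset.mem_range] at hj
        obtain ⟨m, hm⟩ := C5c_dvd hj
        have hh : h (k + 1) = m * C5c k j * h k := by
          rw [show h (k + 1) = L k * h k from rfl, hm]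
        have h1 := C5_count (C5c k j) (h k) m D (C5c_pos k j)
        rw [← hh] at h1
        refine le_trans (Nat.mul_le_mul_left _ ?_) h1
        unfold C5c
        exact Nat.pow_le_pow_right (a_pos k) (by omega)
    _ = D * (N (k + 1) * h (k + 1)) := by
        rw [Finset.sum_const, Finset.card_range, smul_eq_mul]; ring

theorem run_zero {X : Type*} [MeasurableSpace X] {t : ℕ → ℕ} {μ : Measure X}
    [IsProbabilityMeasure μ] {S : X → X} {w : ℕ → X → ℕ × ℕ} (hS : Tower t μ S w) {k : ℕ}
    (hk : t k = 0) (D : ℕ) :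
    ∃ E : Set X, μ E ≤ (D : ℝ≥0∞) / ((a k ^ (N (k + 1) + 2) : ℕ) : ℝ≥0∞) ∧
      ∀ x ∉ E, ∀ s < D * h k, w k (S^[s] x) = ((w k x).1, ((w k x).2 + s) % h k) := by
  have hae : ∀ᵐ x ∂μ, ∀ n : ℕ, (w (k + 1) (S^[n] x)).2 + 1 < h (k + 1) →
      w (k + 1) (S (S^[n] x)) = ((w (k + 1) (S^[n] x)).1, (w (k + 1) (S^[n] x)).2 + 1) := by
    rw [ae_all_iff]
    intro n
    exact (hS.mp.iterate n).quasiMeasurePreserving.ae (hS.step (k + 1))
  set E1 : Set X := w (k + 1) ⁻¹' (C5bad k D : Set (ℕ × ℕ)) with hE1
  set E2 : Set X := {x | ¬ ∀ n : ℕ, (w (k + 1) (S^[n] x)).2 + 1 < h (k + 1) →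
      w (k + 1) (S (S^[n] x)) = ((w (k + 1) (S^[n] x)).1, (w (k + 1) (S^[n] x)).2 + 1)} with hE2
  have hμ2 : μ E2 = 0 := hae
  refine ⟨E1 ∪ E2, ?_, ?_⟩
  · have hNH : 0 < N (k + 1) * h (k + 1) := Nat.mul_pos (N_pos _) (h_pos _)
    have hμ1 : μ E1 ≤ ((C5bad k D).card : ℝ≥0∞) * ((N (k + 1) * h (k + 1) : ℕ) : ℝ≥0∞)⁻¹ := by
      have hsub : E1 ⊆ ⋃ ω ∈ C5bad k D, w (k + 1) ⁻¹' {ω} := by
        intro x hx
        simp only [mem_iUnion]
        exact ⟨w (k + 1) x, hx, rfl⟩
      calc μ E1 ≤ μ (⋃ ω ∈ C5bad k D, w (k + 1) ⁻¹' {ω}) := measure_mono hsub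
        _ ≤ ∑ ω ∈ C5bad k D, μ (w (k + 1) ⁻¹' {ω}) := measure_biUnion_finset_le _ _
        _ = ∑ ω ∈ C5bad k D, ((N (k + 1) * h (k + 1) : ℕ) : ℝ≥0∞)⁻¹ := by
            refine Finset.sum_congr rfl fun ω hω => ?_
            unfold C5bad at hω
            rw [Finset.mem_filter, Finset.mem_product, Finset.mem_range, Finset.mem_range] at hω
            exact hS.law (k + 1) ω.1 ω.2 hω.1.1 hω.1.2
        _ = _ := by rw [Finset.sum_const, nsmul_eq_mul]
    calc μ (E1 ∪ E2) ≤ μ E1 + μ E2 := measure_union_le _ _
      _ ≤ ((C5bad k D).card : ℝ≥0∞) * ((N (k + 1) * h (k + 1) : ℕ) : ℝ≥0∞)⁻¹ := by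
          rw [hμ2, add_zero]; exact hμ1
      _ ≤ (D : ℝ≥0∞) / ((a k ^ (N (k + 1) + 2) : ℕ) : ℝ≥0∞) := by
          have hA : 0 < a k ^ (N (k + 1) + 2) := pow_pos (a_pos k) _
          rw [ENNReal.le_div_iff_mul_le (Or.inl (by exact_mod_cast hA.ne'))
            (Or.inl (ENNReal.natCast_ne_top _))]
          rw [mul_right_comm, ← div_eq_mul_inv]
          refine ENNReal.div_le_of_le_mul ?_
          exact_mod_cast C5bad_card k D
  · intro x hx s hs
    have hx1 : x ∉ E1 := fun h => hx (Or.inl h)
    have hx2 : ∀ n : ℕ, (w (k + 1) (S^[n] x)).2 + 1 < h (k + 1) →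
        w (k + 1) (S (S^[n] x)) = ((w (k + 1) (S^[n] x)).1, (w (k + 1) (S^[n] x)).2 + 1) := by
      by_contra hcon
      exact hx (Or.inr hcon)
    obtain ⟨⟨j, l⟩, hω⟩ : ∃ p, w (k + 1) x = p := ⟨_, rfl⟩
    have hj : j < N (k + 1) := by
      have := hS.lt1 (k + 1) x; rw [hω] at this; exact this
    have hl : l < h (k + 1) := by
      have := hS.lt2 (k + 1) x; rw [hω] at this; exact this
    set c := C5c k j with hc
    have hcpos : 0 < c := C5c_pos k j
    have hH : 0 < h k := h_pos k
    have hgood : (l / h k) % c + D < c := by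
      by_contra hcon
      push Not at hcon
      apply hx1
      rw [hE1, mem_preimage, hω]
      unfold C5bad
      rw [Finset.mem_coe, Finset.mem_filter, Finset.mem_product, Finset.mem_range,
        Finset.mem_range]
      exact ⟨⟨hj, hl⟩, hcon⟩
    obtain ⟨m, hm⟩ := C5c_dvd hj
    have hh : h (k + 1) = m * c * h k := by
      rw [show h (k + 1) = L k * h k from rfl, hm]
    set q := l / h k with hq
    have hqlt : q < m * c := by
      rw [hq, Nat.div_lt_iff_lt_mul hH, ← hh]; exact hl
    have hqc : q / c < m := by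
      rw [Nat.div_lt_iff_lt_mul hcpos]; exact hqlt
    have hqD : q + D < c * (q / c + 1) := by
      have := Nat.div_add_mod q c
      calc q + D = c * (q / c) + (q % c + D) := by omega
        _ < c * (q / c) + c := by omega
        _ = c * (q / c + 1) := by ring
    have hqm : q + D < m * c := by
      calc q + D < c * (q / c + 1) := hqD
        _ ≤ c * m := Nat.mul_le_mul_left _ hqc
        _ = m * c := mul_comm _ _
    -- all positions met
    have hpos : ∀ s', s' < D * h k → l + s' < h (k + 1) ∧ (l + s') / h k ≤ q + D := by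
      intro s' hs'
      have h1 : (l + s') / h k ≤ q + D := by
        have h2 : l < (q + 1) * h k := by
          rw [← Nat.div_lt_iff_lt_mul hH]; exact Nat.lt_succ_self _
        have h3 : l + s' < (q + 1 + D) * h k := by
          calc l + s' < (q + 1) * h k + D * h k := by omega
            _ = (q + 1 + D) * h k := by ring
        have h4 : (l + s') / h k < q + 1 + D := by
          rw [Nat.div_lt_iff_lt_mul hH]; exact h3
        omega
      refine ⟨?_, h1⟩
      rw [hh, ← Nat.div_lt_iff_lt_mul hH]
      omega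
    have horb : ∀ s', s' < D * h k → w (k + 1) (S^[s'] x) = (j, l + s') := by
      intro s'
      induction s' with
      | zero => intro _; simpa using hω
      | succ n ih =>
        intro hn
        have ih' := ih (by omega)
        have h1 := (hpos (n + 1) hn).1
        have h2 := hx2 n (by rw [ih']; simpa [add_assoc] using h1)
        rw [Function.iterate_succ_apply', h2, ih']
        simp [add_assoc]
    have hproj : ∀ y, w k y = (pat k 0 (w (k + 1) y).1 ((w (k + 1) y).2 / h k),
        (w (k + 1) y).2 % h k) := by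
      intro y
      rw [← hS.proj k y, hk]
      rfl
    rw [hproj (S^[s] x), hproj x, horb s hs, hω]
    simp only [C5_pat]
    rw [← hc]
    have h1 := (hpos s hs).2
    have h2 : q ≤ (l + s) / h k := Nat.div_le_div_right (by omega)
    have h3 : (l + s) / h k / c = q / c := by
      apply le_antisymm
      · have : (l + s) / h k / c < q / c + 1 := by
          rw [Nat.div_lt_iff_lt_mul hcpos]
          calc (l + s) / h k ≤ q + D := h1
            _ < c * (q / c + 1) := hqD
            _ = (q / c + 1) * c := mul_comm _ _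
        omega
      · exact Nat.div_le_div_right h2
    rw [h3, Nat.mod_add_mod]

end KakC
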